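import Pool.Agent.Helper35.CWS.StA

set_option autoImplicit false

namespace Pool.Agent.Helper1.CWS

open Set Topology Metric Pool.Agent.Helper35.CWS

theorem hCHA : StINI → StCHA := by
  intro hINI Y _ _ m Q z₀ V hm hcell hz₀ hV hQV
  obtain ⟨ρ, hρ⟩ : ∃ ρ : ℝ, ρ = (1 - ‖z₀‖) / 2 := ⟨_, rfl⟩
  have hz0n : ‖z₀‖ < 1 := by simpa using hz₀
  have hρpos : 0 < ρ := by rw [hρ]; linarith
  haveI : Nonempty (Fin m) := ⟨⟨0, hm⟩⟩
  have hKsub : closedBall z₀ ρ ⊆ ball (0 : Fin m → ℝ) 1 := by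
    intro w hw
    rw [mem_closedBall, dist_eq_norm, hρ] at hw
    rw [mem_ball_zero_iff]
    have h1 : ‖w‖ ≤ ‖w - z₀‖ + ‖z₀‖ := by
      have := norm_add_le (w - z₀) z₀
      simpa using this
    linarith
  have hBK : ball z₀ (ρ / 2) ⊆ closedBall z₀ ρ :=
    ball_subset_closedBall.trans (closedBall_subset_closedBall (by linarith))
  have hcB : ball (0 : Fin m → ℝ) 1 ⊆ closedBall 0 1 := ball_subset_closedBall
  have hvn : ‖(fun _ : Fin m => (1 : ℝ))‖ = 1 := by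
    rw [pi_norm_const]; simp
  have hv0 : (fun _ : Fin m => (1 : ℝ)) ≠ 0 := by
    intro h
    rw [h] at hvn
    simp at hvn
  have hcomp : IsCompact (Q '' (closedBall 0 1 \ ball z₀ (ρ / 2))) := by
    apply IsCompact.image_of_continuousOn
    · exact (isCompact_closedBall 0 1).diff isOpen_ball
    · exact hcell.cont.mono diff_subset
  have hWo : IsOpen (V \ Q '' (closedBall 0 1 \ ball z₀ (ρ / 2))) := hV.sdiff hcomp.isClosed
  have hzB : z₀ ∈ ball z₀ (ρ / 2) := mem_ball_self (by linarith)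
  have hQW : Q z₀ ∈ V \ Q '' (closedBall 0 1 \ ball z₀ (ρ / 2)) := by
    refine ⟨hQV, ?_⟩
    rintro ⟨w, ⟨hw1, hw2⟩, hw3⟩
    by_cases hws : w ∈ sphere (0 : Fin m → ℝ) 1
    · exact hcell.ne z₀ hz₀ w hws hw3.symm
    · have hwb : w ∈ ball (0 : Fin m → ℝ) 1 := by
        rw [mem_closedBall_zero_iff] at hw1
        rw [mem_sphere_zero_iff_norm] at hws
        rw [mem_ball_zero_iff]
        exact lt_of_le_of_ne hw1 hws
      have := hcell.inj hwb hz₀ hw3
      rw [this] at hw2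
      exact hw2 hzB
  obtain ⟨Ψ, hSF, hmov⟩ := hINI Y m (Q '' closedBall 0 1) (V \ Q '' (closedBall 0 1 \ ball z₀ (ρ / 2))) Q
    (closedBall z₀ ρ) (ball z₀ (ρ / 2)) (fun _ => 1) (ρ / 2) (by linarith) (isCompact_closedBall z₀ ρ)
    (hcell.cont.mono (hKsub.trans hcB)) (hcell.inj.mono hKsub) (image_mono (hKsub.trans hcB)) hBK
    (by
      rintro y ⟨⟨w, hw, rfl⟩, hy2, hy3⟩
      by_contra hne
      apply hy3
      refine ⟨w, ⟨hw, ?_⟩, rfl⟩
      intro hwB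
      exact hne ⟨w, hwB, rfl⟩) hv0
    (by
      intro w hw s hs
      rw [mem_ball, dist_eq_norm] at hw
      rw [mem_closedBall, dist_eq_norm]
      have h1 : w + s • (fun _ : Fin m => (1 : ℝ)) - z₀ = (w - z₀) + s • (fun _ : Fin m => (1 : ℝ)) := by abel
      rw [h1]
      have h2 := norm_add_le (w - z₀) (s • (fun _ : Fin m => (1 : ℝ)))
      rw [norm_smul, hvn, Real.norm_eq_abs, abs_of_nonneg hs.1, mul_one] at h2
      have h3 := hs.2
      linarith)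
  exact ⟨_, ρ / 2, Ψ, hWo, diff_subset, hQW, hSF, fun s hs => hmov _ ⟨⟨z₀, hcB hz₀, rfl⟩, hQW⟩ s hs⟩

end Pool.Agent.Helper1.CWS
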